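import Pool.Agent.Q170.WD.St

/-! # Project WD (helper170), job LOWER: the lower bound for the Hilbert function of a prime -/

set_option autoImplicit false

namespace Pool.Agent.Q210.WD

open MvPolynomial Pool.Agent.Q170.WD

/-- the number of monomials (copied from `Pool/Agent/Q149/FPdeg.lean`) -/
theorem finrank_restrict {K : Type*} [Field K] (n m : ℕ) :
    Module.finrank K (restrictTotalDegree (Fin n) K m) = (m + n).choose n := by
  classical
  have h : Module.finrank K (restrictTotalDegree (Fin n) K m) =
      Nat.card {s : Fin n →₀ ℕ | (s.sum fun _ e => e) ≤ m} :=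
    Module.finrank_eq_nat_card_basis
      (basisRestrictSupport K {s : Fin n →₀ ℕ | (s.sum fun _ e => e) ≤ m})
  rw [h]
  set T := (Finset.univ : Finset (Option (Fin n))).finsuppAntidiag m with hT
  have hcard : T.card = (m + n).choose n := by
    rw [hT, Finset.card_finsuppAntidiag_nat_eq_choose]
    rw [Finset.card_univ, Fintype.card_option, Fintype.card_fin]
    rw [show n + 1 + m - 1 = m + n by omega]
    exact (Nat.choose_symm_of_eq_add rfl)
  rw [← hcard, ← Fintype.card_coe, ← Nat.card_eq_fintype_card]
  refine Nat.card_congr (Equiv.ofBijective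
    (fun s : {s : Fin n →₀ ℕ | (s.sum fun _ e => e) ≤ m} =>
      (⟨s.1.optionElim (m - s.1.degree), by
        rw [hT, Finset.mem_finsuppAntidiag]
        refine ⟨?_, Finset.subset_univ _⟩
        rw [Fintype.sum_option]
        simp only [Finsupp.optionElim_apply_none, Finsupp.optionElim_apply_some]
        have h1 : s.1.degree = ∑ i, s.1 i := Finsupp.degree_eq_sum _
        have h2 : (s.1.sum fun _ e => e) ≤ m := s.2
        rw [Finsupp.sum_fintype _ _ (fun _ => rfl)] at h2
        omega⟩ : T)) ⟨?_, ?_⟩)
  · intro s s' hss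
    apply Subtype.ext
    ext i
    have h1 := congrArg (fun z : T => z.1 (some i)) hss
    simpa using h1
  · rintro ⟨f, hf⟩
    rw [hT, Finset.mem_finsuppAntidiag, Fintype.sum_option] at hf
    have h1 : (f.some.sum fun _ e => e) ≤ m := by
      rw [Finsupp.sum_fintype _ _ (fun _ => rfl)]
      have : ∑ i, f.some i = ∑ i, f (some i) := rfl
      omega
    refine ⟨⟨f.some, h1⟩, ?_⟩
    apply Subtype.ext
    ext o
    have h3 : f.some.degree = ∑ i, f (some i) := Finsupp.degree_eq_sum _
    cases o with
    | none =>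
      simp only [Finsupp.optionElim_apply_none]
      omega
    | some i =>
      simp only [Finsupp.optionElim_apply_some]
      rfl

/-- variables whose images form a transcendence basis of the quotient -/
theorem exists_vars {L : Type} [Field L] {N : ℕ} (P : Ideal (MvPolynomial (Fin N) L)) {d : ℕ}
    (hP : P.IsPrime) (hd : Dim P d) : ∃ g : Fin d → Fin N,
      AlgebraicIndependent L (fun i => Ideal.Quotient.mkₐ L P (X (g i))) := by
  classical
  have hdom : IsDomain (MvPolynomial (Fin N) L ⧸ P) := Ideal.Quotient.isDomain P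
  set b : Fin N → MvPolynomial (Fin N) L ⧸ P := fun i => Ideal.Quotient.mkₐ L P (X i) with hb
  have hgen : Algebra.adjoin L (Set.range b) = ⊤ := by
    have h1 : Set.range b = (Ideal.Quotient.mkₐ L P) '' (Set.range X) := by
      rw [← Set.range_comp]
      rfl
    rw [h1, ← AlgHom.map_adjoin, adjoin_range_X, Algebra.map_top, AlgHom.range_eq_top]
    exact Ideal.Quotient.mkₐ_surjective L P
  have halg : Algebra.IsAlgebraic (Algebra.adjoin L (Set.range b)) (MvPolynomial (Fin N) L ⧸ P) := by
    rw [hgen]
    exact ⟨fun z => isAlgebraic_algebraMap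
      (⟨z, Algebra.mem_top⟩ : (⊤ : Subalgebra L (MvPolynomial (Fin N) L ⧸ P)))⟩
  obtain ⟨t, htS, ht⟩ := exists_isTranscendenceBasis_subset (R := L) (Set.range b)
  have hfin : t.Finite := (Set.finite_range b).subset htS
  have : Fintype t := hfin.fintype
  have hcard : Fintype.card t = d := by
    have h1 := ht.cardinalMk_eq_trdeg
    rw [hd, Cardinal.mk_fintype] at h1
    exact_mod_cast h1
  have hch : ∀ z : t, ∃ i, b i = z := fun z => htS z.2
  choose g hg using hch
  let e : Fin d ≃ t := (Fintype.equivFinOfCardEq hcard).symm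
  refine ⟨fun i => g (e i), ?_⟩
  have h1 : AlgebraicIndependent L (fun z : t => (z : MvPolynomial (Fin N) L ⧸ P)) := ht.1
  have h2 : AlgebraicIndependent L (fun i : Fin d => ((e i : t) : MvPolynomial (Fin N) L ⧸ P)) :=
    h1.comp _ e.injective
  have h4 : (fun i : Fin d => ((e i : t) : MvPolynomial (Fin N) L ⧸ P)) =
      fun i => Ideal.Quotient.mkₐ L P (X (g (e i))) := by
    funext i
    rw [← hg (e i)]
  rwa [h4] at h2

/-- **Job LOWER.** -/
theorem t_LOWER : S_LOWER := by
  intro L _ N P d hP hd t
  obtain ⟨g, hg⟩ := exists_vars P hP hd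
  rw [← finrank_restrict (K := L) d t]
  have h1 : Function.Injective (aeval (R := L) fun i => Ideal.Quotient.mkₐ L P (X (g i))).toLinearMap := hg
  rw [LinearEquiv.finrank_eq (Submodule.equivMapOfInjective _ h1 (restrictTotalDegree (Fin d) L t))]
  unfold hilb
  refine Submodule.finrank_mono ?_
  rintro _ ⟨p, hp, rfl⟩
  have hp' : p.totalDegree ≤ t := (mem_restrictTotalDegree (σ := Fin d) (R := L) _ _).1 hp
  refine ⟨rename g p, (mem_restrictTotalDegree _ _ _).2 ((totalDegree_rename_le _ _).trans hp'), ?_⟩
  simp only [AlgHom.toLinearMap_apply]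
  have h2 : ((Ideal.Quotient.mkₐ L P).comp (rename g)) =
      aeval (R := L) fun i => Ideal.Quotient.mkₐ L P (X (g i)) := by
    refine MvPolynomial.algHom_ext fun i => ?_
    rw [AlgHom.comp_apply, rename_X, aeval_X]
  exact congrArg (fun k : MvPolynomial (Fin d) L →ₐ[L] (MvPolynomial (Fin N) L ⧸ P) => k p) h2

end Pool.Agent.Q210.WD
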