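import Pool.Agent.Q170.WD.St

/-! # Project WD (helper170), job SEC: monotonicity and hypersurface sections of Hilbert functions -/

set_option autoImplicit false

namespace Pool.Agent.Q210.WD

open MvPolynomial Pool.Agent.Q170.WD

/-- the image of the polynomials of total degree at most `t` in the quotient -/
noncomputable def U {L : Type} [Field L] {N : ℕ} (I : Ideal (MvPolynomial (Fin N) L)) (t : ℕ) :
    Submodule L (MvPolynomial (Fin N) L ⧸ I) :=
  (restrictTotalDegree (Fin N) L t).map (Ideal.Quotient.mkₐ L I).toLinearMap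

theorem hilb_eq {L : Type} [Field L] {N : ℕ} (I : Ideal (MvPolynomial (Fin N) L)) (t : ℕ) :
    hilb I t = Module.finrank L (U I t) := rfl

theorem mem_U {L : Type} [Field L] {N : ℕ} {I : Ideal (MvPolynomial (Fin N) L)} {t : ℕ}
    {x : MvPolynomial (Fin N) L ⧸ I} :
    x ∈ U I t ↔ ∃ p : MvPolynomial (Fin N) L, p.totalDegree ≤ t ∧ Ideal.Quotient.mk I p = x := by
  unfold U
  rw [Submodule.mem_map]
  constructor
  · rintro ⟨p, hp, h⟩
    exact ⟨p, (mem_restrictTotalDegree _ _ _).1 hp, h⟩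
  · rintro ⟨p, hp, h⟩
    exact ⟨p, (mem_restrictTotalDegree _ _ _).2 hp, h⟩

instance U_fin {L : Type} [Field L] {N : ℕ} (I : Ideal (MvPolynomial (Fin N) L)) (t : ℕ) :
    Module.Finite L (U I t) := by
  unfold U
  infer_instance

/-- the map of the quotients -/
noncomputable def fac {L : Type} [Field L] {N : ℕ} {I J : Ideal (MvPolynomial (Fin N) L)} (h : I ≤ J) :
    (MvPolynomial (Fin N) L ⧸ I) →ₗ[L] (MvPolynomial (Fin N) L ⧸ J) :=
  (Ideal.Quotient.factorₐ L h).toLinearMap

theorem fac_mk {L : Type} [Field L] {N : ℕ} {I J : Ideal (MvPolynomial (Fin N) L)} (h : I ≤ J)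
    (p : MvPolynomial (Fin N) L) : fac h (Ideal.Quotient.mk I p) = Ideal.Quotient.mk J p := rfl

theorem map_U {L : Type} [Field L] {N : ℕ} {I J : Ideal (MvPolynomial (Fin N) L)} (h : I ≤ J)
    (t : ℕ) : (U I t).map (fac h) = U J t := by
  ext x
  rw [Submodule.mem_map, mem_U]
  constructor
  · rintro ⟨y, hy, rfl⟩
    obtain ⟨p, hp, rfl⟩ := mem_U.1 hy
    exact ⟨p, hp, (fac_mk h p).symm⟩
  · rintro ⟨p, hp, rfl⟩
    exact ⟨Ideal.Quotient.mk I p, mem_U.2 ⟨p, hp, rfl⟩, fac_mk h p⟩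

theorem hilb_mono {L : Type} [Field L] {N : ℕ} {I J : Ideal (MvPolynomial (Fin N) L)} (h : I ≤ J)
    (t : ℕ) : hilb J t ≤ hilb I t := by
  rw [hilb_eq, hilb_eq, ← map_U h t]
  exact Submodule.finrank_map_le (fac h) (U I t)

theorem section_le {L : Type} [Field L] {N : ℕ} (P : Ideal (MvPolynomial (Fin N) L))
    (f : MvPolynomial (Fin N) L) (e : ℕ) (hP : P.IsPrime) (hf : f ∉ P) (he : f.totalDegree ≤ e)
    (t : ℕ) (ht : e ≤ t) : hilb (P ⊔ Ideal.span {f}) t + hilb P (t - e) ≤ hilb P t := by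
  have hle : P ≤ P ⊔ Ideal.span {f} := le_sup_left
  have hdom : IsDomain (MvPolynomial (Fin N) L ⧸ P) := Ideal.Quotient.isDomain P
  have hf0 : Ideal.Quotient.mk P f ≠ 0 := fun h => hf (Ideal.Quotient.eq_zero_iff_mem.1 h)
  set m : (MvPolynomial (Fin N) L ⧸ P) →ₗ[L] (MvPolynomial (Fin N) L ⧸ P) :=
    LinearMap.mulLeft L (Ideal.Quotient.mk P f) with hm
  have hinj : Function.Injective m := by
    intro x y hxy
    exact mul_left_cancel₀ hf0 hxy
  set W := (U P (t - e)).map m with hW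
  have hWU : W ≤ U P t := by
    rintro _ ⟨y, hy, rfl⟩
    obtain ⟨p, hp, rfl⟩ := mem_U.1 hy
    refine mem_U.2 ⟨f * p, ?_, ?_⟩
    · refine (totalDegree_mul f p).trans ?_
      omega
    · rw [map_mul]
      rfl
  have hWr : Module.finrank L W = hilb P (t - e) := by
    rw [hilb_eq]
    exact (LinearEquiv.finrank_eq (Submodule.equivMapOfInjective m hinj (U P (t - e)))).symm
  set g : U P t →ₗ[L] (MvPolynomial (Fin N) L ⧸ (P ⊔ Ideal.span {f})) :=
    (fac hle).domRestrict (U P t) with hg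
  have hrange : LinearMap.range g = U (P ⊔ Ideal.span {f}) t := by
    rw [← map_U hle t]
    exact LinearMap.range_domRestrict _ _
  have hker : W.comap (U P t).subtype ≤ LinearMap.ker g := by
    intro x hx
    rw [LinearMap.mem_ker]
    obtain ⟨y, hy, hyx⟩ := hx
    obtain ⟨p, hp, rfl⟩ := mem_U.1 hy
    show fac hle (x : MvPolynomial (Fin N) L ⧸ P) = 0
    have h1 : (x : MvPolynomial (Fin N) L ⧸ P) = Ideal.Quotient.mk P (f * p) := by
      rw [map_mul]
      exact hyx.symm
    rw [h1, fac_mk, Ideal.Quotient.eq_zero_iff_mem]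
    exact Ideal.mul_mem_right _ _ (Ideal.mem_sup_right (Ideal.mem_span_singleton_self f))
  have h1 := LinearMap.finrank_range_add_finrank_ker g
  rw [hrange] at h1
  have h2 : Module.finrank L (W.comap (U P t).subtype) = Module.finrank L W :=
    LinearEquiv.finrank_eq (Submodule.comapSubtypeEquivOfLe hWU)
  have h3 := Submodule.finrank_mono hker
  rw [h2, hWr] at h3
  rw [hilb_eq (P ⊔ Ideal.span {f}), hilb_eq P t]
  omega

/-- **Job SEC.** -/
theorem t_SEC : S_SEC :=
  ⟨fun _ _ _ t _ _ h => hilb_mono h t,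
    fun _ _ _ P f e hP hf he t ht => section_le P f e hP hf he t ht⟩

end Pool.Agent.Q210.WD
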